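import Mathlib

set_option autoImplicit false

namespace Pool.Agent.Results.MP_2568f3_co.Counter

/-- Sum of the `j` smallest entries of `c`. -/
def lowSum {k : ℕ} (c : Fin k → ℕ) (j : ℕ) : ℕ :=
  (((List.ofFn c).insertionSort (· ≤ ·)).take j).sum

/-- Degree of the vertex `v` of the side `V` in the edge set `F ⊆ U × V`. -/
def deg {n : ℕ} (F : Finset (Fin n × Fin n)) (v : Fin n) : ℕ :=
  (F.filter (fun e => e.2 = v)).card

def A : Fin 3 → Fin 5 → ℕ := ![![0, 0, 0, 0, 1], ![2, 2, 2, 2, 5], ![3, 3, 3, 3, 5]]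

def W (i : Fin 3) : Finset (Fin 5 × Fin 5) := Finset.univ.filter (fun e => e.1.val < A i e.2)

theorem result : ¬ ∀ (k n : ℕ), 1 ≤ k → 1 ≤ n → ∀ F : Fin k → Finset (Fin n × Fin n),
    (∀ j, 1 ≤ j → j ≤ k → j * (j - 1) * n < lowSum (fun i => (F i).card) j) →
    ∃ u : Fin k → Fin n, Function.Injective u ∧
      ∀ j, 1 ≤ j → j ≤ k → j * (j - 1) < lowSum (fun i => deg (F i) (u i)) j := by
  intro h
  have hd : ∀ i v, deg (W i) v = A i v := by decide +kernel
  obtain ⟨u, hu, h2⟩ := h 3 5 (by norm_num) (by norm_num) W (by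
    intro j h1 h3
    interval_cases j <;> decide +kernel)
  simp only [hd] at h2
  have h1 := h2 1 (by norm_num) (by norm_num)
  have h3 := h2 3 (by norm_num) (by norm_num)
  have key : ∀ a b c : Fin 5, a ≠ b → a ≠ c →
      1 * (1 - 1) < lowSum (fun i => A i (![a, b, c] i)) 1 →
      ¬ 3 * (3 - 1) < lowSum (fun i => A i (![a, b, c] i)) 3 := by decide +kernel
  have e : u = ![u 0, u 1, u 2] := by
    funext i; fin_cases i <;> rfl
  rw [e] at h1 h3
  exact key _ _ _ (fun hh => absurd (hu hh) (by decide)) (fun hh => absurd (hu hh) (by decide)) h1 h3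

end Pool.Agent.Results.MP_2568f3_co.Counter
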